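import Pool.Agent.H905Z.GPMore

set_option autoImplicit false

/-! Gaussian convex hulls have cotype `q` for every `q ≥ 2` with one universal constant. -/

namespace Pool.Agent.Results.MP_28cf54_an.ACotypeTwo

open MeasureTheory ProbabilityTheory

/-- The Minkowski functional of the convex hull of the points `± g i`. -/
noncomputable def polyNorm {N n : ℕ} (g : Fin N → Fin n → ℝ) (x : Fin n → ℝ) : ℝ :=
  gauge (convexHull ℝ (Set.range g ∪ Set.range (-g))) x

/-- Cotype `q` with constant `C`: the average of `φ (∑ ± y i) ^ q` over all signs is at least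
`C ^ (-q) * ∑ φ (y i) ^ q`, for all finite families `y`. -/
def HasCotype {n : ℕ} (φ : (Fin n → ℝ) → ℝ) (q C : ℝ) : Prop :=
  ∀ (k : ℕ) (y : Fin k → Fin n → ℝ),
    C ^ (-q) * ∑ i, φ (y i) ^ q ≤
      (∑ σ : Fin k → Bool, φ (∑ i, (if σ i then (1 : ℝ) else -1) • y i) ^ q) / 2 ^ k

open Pool.Agent.H905Z.GP in
theorem result : ∃ C : ℝ, 0 < C ∧ ∀ δ : ℝ, 0 < δ → ∃ n₀ : ℕ, ∀ n N : ℕ, n₀ ≤ n → n ≤ N →
    (Measure.pi fun _ : Fin N => Measure.pi fun _ : Fin n => gaussianReal 0 1)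
      {g : Fin N → Fin n → ℝ | ¬ (Submodule.span ℝ (Set.range g) = ⊤ ∧
        ∀ q : ℝ, 2 ≤ q → HasCotype (polyNorm g) q C)} ≤ ENNReal.ofReal δ := by
  have hD : 0 < bigD := by unfold bigD; norm_num
  have hC : 0 < √(3 * bigD) := Real.sqrt_pos.2 (by positivity)
  refine ⟨√(3 * bigD), hC, fun δ hδ => ?_⟩
  obtain ⟨n₀, hn₀⟩ := small δ hδ
  refine ⟨n₀, fun n N hn hnN => ?_⟩
  obtain ⟨hn', h2⟩ := hn₀ n hn
  obtain ⟨B, hB, hgood⟩ := good2 hn' hnN
  refine le_trans (measure_mono (t := B) fun g hg => ?_)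
    ((ENNReal.le_ofReal_iff_toReal_le (measure_ne_top _ _) hδ.le).2 (hB.trans h2))
  by_contra hgB
  apply hg
  obtain ⟨hs, h3⟩ := hgood g hgB
  refine ⟨?_, fun q hq k y => ?_⟩
  · rw [← Fintype.range_linearCombination]
    exact LinearMap.range_eq_top.2 hs
  have hφ : polyNorm g = gauge (body g) := by
    funext x
    rw [polyNorm, hull_eq g (hn'.trans_le hnN)]
  rw [hφ]
  have h4 := h3 (gauge (body g)) (gauge_le g) (fun x => gauge_nonneg x) (gauge_lift g hs) k y
  rw [ex_bool (fun c => gauge (body g) (∑ i, c i • y i)), Finset.mul_sum] at h4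
  set φ := gauge (body g) with hφdef
  have h0 : ∀ x, 0 ≤ φ x := fun x => gauge_nonneg x
  set S := √(∑ j, φ (y j) ^ 2) with hS
  have hS0 : 0 ≤ S := Real.sqrt_nonneg _
  have hS2 : S ^ (2 : ℝ) = ∑ j, φ (y j) ^ 2 := by
    rw [Real.rpow_two]
    exact Real.sq_sqrt (Finset.sum_nonneg fun j _ => sq_nonneg _)
  have hq' : q = 2 + (q - 2) := by ring
  have h5 : ∑ i, φ (y i) ^ q ≤ S ^ q := by
    rw [hq', Real.rpow_add_of_nonneg hS0 (by norm_num) (by linarith), hS2, Finset.sum_mul]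
    refine Finset.sum_le_sum fun i _ => ?_
    rw [Real.rpow_add_of_nonneg (h0 _) (by norm_num) (by linarith), Real.rpow_two]
    refine mul_le_mul_of_nonneg_left (Real.rpow_le_rpow (h0 _) ?_ (by linarith)) (sq_nonneg _)
    exact Real.le_sqrt_of_sq_le (Finset.single_le_sum (f := fun j => φ (y j) ^ 2)
      (fun _ _ => sq_nonneg _) (Finset.mem_univ i))
  have h6 := Real.rpow_arith_mean_le_arith_mean_rpow (Finset.univ : Finset (Fin k → Bool))
    (fun _ => 1 / (2 : ℝ) ^ k) (fun σ => φ (∑ i, (if σ i then (1 : ℝ) else -1) • y i))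
    (fun _ _ => by positivity) (by simp) (fun _ _ => h0 _) (p := q) (by linarith)
  have h7 := Real.rpow_le_rpow hS0 h4 (by linarith : 0 ≤ q)
  rw [Real.mul_rpow hC.le (Finset.sum_nonneg fun _ _ => mul_nonneg (by positivity) (h0 _))] at h7
  have h8 : 0 < √(3 * bigD) ^ q := Real.rpow_pos_of_pos hC q
  rw [Real.rpow_neg hC.le, inv_mul_le_iff₀ h8, div_eq_inv_mul, Finset.mul_sum, ← one_div]
  exact h5.trans (h7.trans (mul_le_mul_of_nonneg_left h6 h8.le))

end Pool.Agent.Results.MP_28cf54_an.ACotypeTwo
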